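import Pool.Agent.U661.RW.Forms

/-!
# Examples and integrated forms
-/

set_option autoImplicit false

namespace Pool.Agent.U661.RW

open Finset Pool.Agent.Y195.HF Pool.Agent.W666.GB Pool.Agent.W669.HD Pool.Agent.U661.HS
open Pool.Agent.U661.RV

variable {m : ℕ} {V : Type} [NormedAddCommGroup V] [InnerProductSpace ℝ V]

omit [NormedAddCommGroup V] [InnerProductSpace ℝ V] in
theorem lcf_fix {n : ℕ} {A : Fin n → V → V → ℝ} {g : V → V}
    (h : ∀ a x y, A a (g x) (g y) = A a x y) (p : Fin n → ℝ) (x y : V) :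
    lcf p A (g x) (g y) = lcf p A x y := by
  simp only [lcf, h]

/-- One isometry which reverses all the skew forms and all the symmetric forms `h b`. -/
theorem rev_one {n q r : ℕ} {A : Fin n → V → V → ℝ} {h : Fin q → V → V → ℝ}
    {S S' : Fin r → V → V → ℝ} (g : V →ₗᵢ[ℝ] V)
    (hA : ∀ a x y, A a (g x) (g y) = - A a x y) (hh : ∀ b x y, h b (g x) (g y) = - h b x y)
    (hS : ∀ j x y, S j (g x) (g y) = S j x y ∧ S' j (g x) (g y) = S' j x y) : Rev A h S S' :=
  fun c p => ⟨g, hS, lcf_rev hh c, Or.inl fun i => lcf_rev hA (p i)⟩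

/-- Three vectors in a space of dimension at most two are linearly dependent. -/
theorem three_dep {n : ℕ} (hn : n ≤ 2) (p : Fin 3 → Fin n → ℝ) :
    ∃ v : Fin 3 → ℝ, v ≠ 0 ∧ ∀ a, ∑ i, v i * p i a = 0 := by
  have h1 : ¬ LinearIndependent ℝ p := by
    intro h
    have h2 := h.fintype_card_le_finrank
    rw [Fintype.card_fin, Module.finrank_fin_fun] at h2
    omega
  rw [Fintype.not_linearIndependent_iff] at h1
  obtain ⟨v, hv, i, hi⟩ := h1
  refine ⟨v, fun h0 => hi (by rw [h0]; rfl), fun a => ?_⟩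
  have := congrFun hv a
  simpa [Finset.sum_apply] using this

/-- At most two skew forms, preserved by isometries which reverse the symmetric forms. -/
theorem rev_two {n q r : ℕ} {A : Fin n → V → V → ℝ} {h : Fin q → V → V → ℝ}
    {S S' : Fin r → V → V → ℝ} (hn : n ≤ 2)
    (H : ∀ c : Fin q → ℝ, ∃ g : V →ₗᵢ[ℝ] V,
      (∀ j x y, S j (g x) (g y) = S j x y ∧ S' j (g x) (g y) = S' j x y) ∧
      (∀ a x y, A a (g x) (g y) = A a x y) ∧ ∀ x y, lcf c h (g x) (g y) = - lcf c h x y) :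
    Rev A h S S' := by
  intro c p
  obtain ⟨g, h1, h2, h3⟩ := H c
  obtain ⟨v, hv, hv'⟩ := three_dep hn p
  refine ⟨g, h1, h3, Or.inr ⟨fun i => lcf_fix h2 (p i), v, hv, fun x y => ?_⟩⟩
  simp only [lcf, Finset.mul_sum]
  rw [Finset.sum_comm]
  refine Finset.sum_eq_zero fun a _ => ?_
  have h4 : ∑ i, v i * (p i a * A a x y) = (∑ i, v i * p i a) * A a x y := by
    rw [Finset.sum_mul]
    exact Finset.sum_congr rfl fun i _ => by ring
  rw [h4, hv', zero_mul]

/-- Skew forms and symmetric forms `h b` which vanish on `U × U` and on `Uᗮ × Uᗮ`, forms `S j` which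
vanish on `U × Uᗮ`. -/
theorem rev_blocks {n q r : ℕ} {A : Fin n → V → V → ℝ} {h : Fin q → V → V → ℝ}
    {S S' : Fin r → V → V → ℝ} (U : Submodule ℝ V) [U.HasOrthogonalProjection]
    (hs : ∀ a, SkewForm (A a)) (hh : ∀ b, SymForm (h b))
    (hA : ∀ a, (∀ x ∈ U, ∀ y ∈ U, A a x y = 0) ∧ ∀ x ∈ Uᗮ, ∀ y ∈ Uᗮ, A a x y = 0)
    (hH : ∀ b, (∀ x ∈ U, ∀ y ∈ U, h b x y = 0) ∧ ∀ x ∈ Uᗮ, ∀ y ∈ Uᗮ, h b x y = 0)
    (hS : ∀ j, SymForm (S j) ∧ ∀ x ∈ U, ∀ y ∈ Uᗮ, S j x y = 0)
    (hS' : ∀ j, SymForm (S' j) ∧ ∀ x ∈ U, ∀ y ∈ Uᗮ, S' j x y = 0) : Rev A h S S' := by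
  have key : ∀ x : V, ∃ u ∈ U, ∃ v ∈ Uᗮ, x = u + v ∧ U.reflection x = u + (-1 : ℝ) • v := by
    intro x
    refine ⟨U.starProjection x, Submodule.starProjection_apply_mem U x,
      x - U.starProjection x, Submodule.sub_starProjection_mem_orthogonal x, by abel, ?_⟩
    rw [Submodule.reflection_apply]
    module
  have sy : ∀ {B : V → V → ℝ}, SymForm B → (∀ x ∈ U, ∀ y ∈ Uᗮ, B x y = 0) →
      ∀ x y, B (U.reflection x) (U.reflection y) = B x y := by
    intro B hB h0 x y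
    obtain ⟨u, hu, v, hv, hx, hx'⟩ := key x
    obtain ⟨u', hu', v', hv', hy, hy'⟩ := key y
    have hb := hB.bl
    rw [hx', hy', hx, hy, hb.add, hb.add, hb.add', hb.add', hb.add', hb.add', hb.smul, hb.smul,
      hb.smul', hb.smul', h0 u hu v' hv', hB.symm u' v, h0 u' hu' v hv]
    ring
  have sk : ∀ {B : V → V → ℝ}, Bl B → (∀ x ∈ U, ∀ y ∈ U, B x y = 0) →
      (∀ x ∈ Uᗮ, ∀ y ∈ Uᗮ, B x y = 0) →
      ∀ x y, B (U.reflection x) (U.reflection y) = - B x y := by
    intro B hb h0 h1 x y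
    obtain ⟨u, hu, v, hv, hx, hx'⟩ := key x
    obtain ⟨u', hu', v', hv', hy, hy'⟩ := key y
    rw [hx', hy', hx, hy, hb.add, hb.add, hb.add', hb.add', hb.add', hb.add', hb.smul, hb.smul,
      hb.smul', hb.smul', h0 u hu u' hu', h1 v hv v' hv']
    ring
  exact rev_one U.reflection.toLinearIsometry
    (fun a x y => sk (skew_bl (hs a)) (hA a).1 (hA a).2 x y)
    (fun b x y => sk (hh b).bl (hH b).1 (hH b).2 x y)
    (fun j x y => ⟨sy (hS j).1 (hS j).2 x y, sy (hS' j).1 (hS' j).2 x y⟩)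

/-- Skew forms in the span of a Clifford family with at least four members. -/
theorem rev_cliff' {k n : ℕ} (hk : 4 ≤ k) {J : Fin k → V →ₗ[ℝ] V} (hJ : Cliff J)
    (c : Fin n → Fin k → ℝ) : Rev (q := 0) (r := 0) (fun a x y => ∑ i, c a i * kf (J i) x y)
      (fun j => j.elim0) (fun j => j.elim0) (fun j => j.elim0) := by
  intro _ p
  obtain ⟨g, -, -, h⟩ := rev_cliff hk hJ c (p 0) (p 1) (p 2)
  refine ⟨g, fun j => j.elim0, fun x y => ?_, Or.inl fun i x y => ?_⟩
  · simp only [lcf, Finset.univ_eq_empty, Finset.sum_empty, neg_zero]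
  · fin_cases i
    · exact (h x y).1
    · exact (h x y).2.1
    · exact (h x y).2.2

/-- The curvature tensor of a submanifold of complex hyperbolic space, with the restriction `ω` of
the Kähler form and the components `h b` of the second fundamental form:
`-k (unitT + skewCurv ω) + ∑ (h b ∧ h b)`. -/
noncomputable def chR {q : ℕ} (k : ℝ) (ω : V → V → ℝ) (h : Fin q → V → V → ℝ) (x y z w : V) : ℝ :=
  -(k * (unitT x y z w + skewCurv ω x y z w)) + ∑ b, (h b x z * h b y w - h b x w * h b y z)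

theorem ch_bound (e : OrthonormalBasis (Fin m × Bool) ℝ V) {k : ℝ} (hk : 0 ≤ k) {q : ℕ}
    {ω : V → V → ℝ} (hω : SkewForm ω) {h : Fin q → V → V → ℝ} (hh : ∀ b, SymForm (h b))
    (H : ∀ c : Fin q → ℝ, ∃ g : V →ₗᵢ[ℝ] V, (∀ x y, lcf c h (g x) (g y) = - lcf c h x y) ∧
      ((∀ x y, ω (g x) (g y) = ω x y) ∨ ∀ x y, ω (g x) (g y) = - ω x y)) :
    roundGB m k ≤ (-1) ^ m * gbc e (chR k ω h) := by
  set A : Fin 1 → V → V → ℝ := fun _ x y => Real.sqrt k * ω x y with hAd
  have hA : ∀ a, SkewForm (A a) := fun _ =>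
    ⟨fun x x' y => by simp only [hAd, hω.add]; ring, fun t x y => by simp only [hAd, hω.smul]; ring,
      fun x y => by simp only [hAd, hω.anti x y]; ring⟩
  have hr : Rev A h (fun j : Fin 0 => j.elim0) (fun j : Fin 0 => j.elim0) := by
    intro c p
    obtain ⟨g, h1, h2⟩ := H c
    refine ⟨g, fun j => j.elim0, h1, ?_⟩
    rcases h2 with h2 | h2
    · obtain ⟨v, hv, hv'⟩ := three_dep (n := 1) (by norm_num) p
      refine Or.inr ⟨fun i => lcf_fix (A := A) (fun a x y => by simp only [hAd, h2]) (p i),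
        v, hv, fun x y => ?_⟩
      have := hv' 0
      have h3 : ∑ i, v i * lcf (p i) A x y = (∑ i, v i * p i 0) * (Real.sqrt k * ω x y) := by
        rw [Finset.sum_mul]
        refine Finset.sum_congr rfl fun i _ => ?_
        simp only [lcf, Finset.univ_unique, Fin.default_eq_zero, Finset.sum_singleton, hAd]
        ring
      rw [h3, this, zero_mul]
    · exact Or.inl fun i => lcf_rev (A := A) (fun a x y => by simp only [hAd, h2]; ring) (p i)
  have h1 := full_neg e hk hA hh (S := fun j : Fin 0 => j.elim0) (S' := fun j : Fin 0 => j.elim0)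
    (fun j => j.elim0) (fun j => j.elim0) hr
  have h2 : negT (full (base k (fun j : Fin 0 => j.elim0) (fun j : Fin 0 => j.elim0)) A h) =
      chR k ω h := by
    funext x y z w
    have hs : Real.sqrt k * Real.sqrt k = k := Real.mul_self_sqrt hk
    simp only [negT, full, base, chR, Finset.univ_eq_empty, Finset.sum_empty, add_zero,
      Finset.univ_unique, Fin.default_eq_zero, Finset.sum_singleton, hAd, skewCurv]
    linear_combination (-(2 * (ω x y * ω z w) + ω x z * ω y w - ω x w * ω y z)) * hs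
  rw [← h2]
  exact h1.1.trans h1.2

/-- The pointwise hypothesis:
`-R = δ unitT + ∑ kn (S j) (S' j) + ∑ skewCurv (A a) - ∑ (h b ∧ h b)`. -/
def NegRev (δ : ℝ) (R : V → V → V → V → ℝ) : Prop :=
  ∃ (n q r : ℕ) (A : Fin n → V → V → ℝ) (h : Fin q → V → V → ℝ) (S S' : Fin r → V → V → ℝ),
    (∀ a, SkewForm (A a)) ∧ (∀ b, SymForm (h b)) ∧ (∀ j, Psd (S j) ∧ Psd (S' j)) ∧ Rev A h S S' ∧
      R = negT (full (base δ S S') A h)

theorem negRev_bound (e : OrthonormalBasis (Fin m × Bool) ℝ V) {R : V → V → V → V → ℝ}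
    {δ : ℝ} (hδ : 0 ≤ δ) (h : NegRev δ R) : roundGB m δ ≤ (-1) ^ m * gbc e R := by
  obtain ⟨n, q, r, A, h, S, S', hA, hh, hS, hR, rfl⟩ := h
  have h1 := full_neg e hδ hA hh (fun j => (hS j).1) (fun j => (hS j).2) hR
  exact h1.1.trans h1.2

theorem field_negRev {M : Type} [MeasurableSpace M] (μ : MeasureTheory.Measure M)
    (K : CurvField m M) (δ : M → ℝ) (h : ∀ p, 0 ≤ δ p ∧ NegRev (δ p) (K.R p)) :
    0 ≤ (-1) ^ m * ∫ p, K.gb p ∂μ ∧
      (MeasureTheory.Integrable K.gb μ → ∫ p, roundGB m (δ p) ∂μ ≤ (-1) ^ m * ∫ p, K.gb p ∂μ) ∧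
      (MeasureTheory.Integrable K.gb μ → μ {p | 0 < δ p} ≠ 0 →
        0 < (-1) ^ m * ∫ p, K.gb p ∂μ) := by
  have h1 : ∀ p, roundGB m (δ p) ≤ (-1) ^ m * K.gb p := fun p => negRev_bound (K.e p) (h p).1 (h p).2
  have hr : ∀ p, 0 ≤ roundGB m (δ p) := fun p => roundGB_nonneg (h p).1
  have h0 : ∀ p, 0 ≤ (-1) ^ m * K.gb p := fun p => (hr p).trans (h1 p)
  rw [← MeasureTheory.integral_const_mul]
  refine ⟨MeasureTheory.integral_nonneg h0, fun hi => ?_, fun hi hμ => ?_⟩
  · exact MeasureTheory.integral_mono_of_nonneg (Filter.Eventually.of_forall hr)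
      (hi.const_mul _) (Filter.Eventually.of_forall h1)
  · rw [MeasureTheory.integral_pos_iff_support_of_nonneg h0 (hi.const_mul _)]
    refine lt_of_lt_of_le (pos_iff_ne_zero.mpr hμ) (MeasureTheory.measure_mono fun p hp => ?_)
    have h2 := roundGB_pos (m := m) (show 0 < δ p from hp)
    exact (h2.trans_le (h1 p)).ne'

end Pool.Agent.U661.RW
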