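import Pool.Agent.U661.RV.Fam

/-!
# Quaternionic hermitian pencils reversed by a symmetry of the generators
-/

set_option autoImplicit false

namespace Pool.Agent.U661.RW

open Finset Pool.Agent.Y195.HF Pool.Agent.W666.GB Pool.Agent.W669.HD Pool.Agent.U661.HS
open Pool.Agent.U661.RV

variable {m : ℕ}

/-- the linear maps of the space of generators -/
abbrev Ed (m : ℕ) := (I2 m → ℂ) →ₗ[ℂ] (I2 m → ℂ)

/-- `f` fixes `x` -/
def Fx (f : Ed m) (x : Zc (I2 m → ℂ)) : Prop := ExteriorAlgebra.map f (zval x) = zval x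

/-- `f` reverses `x` -/
def Rx (f : Ed m) (x : Zc (I2 m → ℂ)) : Prop := ExteriorAlgebra.map f (zval x) = zval (-x)

theorem Rx.add {f : Ed m} {x y : Zc (I2 m → ℂ)} (hx : Rx f x) (hy : Rx f y) : Rx f (x + y) := by
  unfold Rx at *
  rw [map_add, map_add, hx, hy, ← map_add, neg_add]

theorem det_f {f : Ed m} (hf : Fx f (ff false true (idM : Mt m))) : LinearMap.det f = 1 := by
  have h := LF_map_gen f (zval (ff false true (idM : Mt m) ^ (2 * m)))
  rw [map_pow, map_pow, hf, ← map_pow] at h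
  have h1 := LF_g_ne (m := m)
  have h2 : (LinearMap.det f - 1) *
      LF m (zval (ff false true (idM : Mt m) ^ (2 * m))) = 0 := by
    rw [sub_mul, ← h, one_mul, sub_self]
  exact sub_eq_zero.mp ((mul_eq_zero.mp h2).resolve_right h1)

/-- Positive definite matrices which are preserved by `f`. -/
def GLf (f : Ed m) (L : List (Fin m × Bool → Fin m × Bool → ℝ)) : Prop :=
  ∀ S ∈ L, PD S ∧ Fx f (xs S)

theorem f_pr {f : Ed m} {L : List (Fin m × Bool → Fin m × Bool → ℝ)} (hL : GLf f L) :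
    Fx f (pr L) := by
  unfold Fx
  induction L with
  | nil => simp [pr]
  | cons S L ih =>
    have h1 := ih fun S hS => hL S (List.mem_cons_of_mem _ hS)
    have h2 : ExteriorAlgebra.map f (zval (xs S)) = zval (xs S) := (hL S List.mem_cons_self).2
    unfold pr at h1 ⊢
    rw [List.map_cons, List.prod_cons, map_mul, map_mul, h1, h2]

theorem odd_zero' {f : Ed m} (hf : Fx f (ff false true (idM : Mt m))) {x : Zc (I2 m → ℂ)}
    (hx : Rx f x) {L : List (Fin m × Bool → Fin m × Bool → ℝ)} (hL : GLf f L) {k : ℕ}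
    (hk : Odd k) (n : ℕ) :
    Lf m (x ^ k * ff false true (idM : Mt m) ^ n * pr L) = 0 := by
  have e := LF_map (det_f hf) (zval (x ^ k * ff false true (idM : Mt m) ^ n * pr L))
  have h1 : ExteriorAlgebra.map f
      (zval (x ^ k * ff false true (idM : Mt m) ^ n * pr L)) =
      zval ((- x) ^ k * ff false true (idM : Mt m) ^ n * pr L) := by
    have h2 : ExteriorAlgebra.map f (zval x) = zval (-x) := hx
    have h3 : ExteriorAlgebra.map f (zval (ff false true (idM : Mt m))) =
      zval (ff false true (idM : Mt m)) := hf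
    have h4 : ExteriorAlgebra.map f (zval (pr L)) = zval (pr L) := f_pr hL
    simp only [map_mul, map_pow, h2, h3, h4]
  rw [h1, hk.neg_pow, neg_mul, neg_mul, map_neg, map_neg] at e
  rw [Lf_apply]
  linear_combination (-1 / 2 : ℂ) * e

/-- The sign of the mixed products. -/
theorem mix_sign' {f : Ed m} {P Q R : Mt m} {H : Fin m × Bool → Fin m × Bool → ℝ}
    (hP : RSk P) (hQ : RSk Q) (hR : RSk R) (hH : ∀ i j, H i j = H j i)
    (hf : Fx f (ff false true (idM : Mt m))) (hx : Rx f (WW P Q R + xs H))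
    {L : List (Fin m × Bool → Fin m × Bool → ℝ)} (hL : GLf f L) {N : ℕ}
    (hN : L.length + 2 * N = 2 * m) : ∃ b : ℝ, 0 ≤ b ∧
      Lf m ((WW P Q R + xs H) ^ (2 * N) * pr L) =
        (-1) ^ N * (b : ℂ) * Lf m (ff false true (idM : Mt m) ^ (2 * m)) := by
  have hPD : ∀ S ∈ L, PD S := fun S hS => (hL S hS).1
  set x := WW P Q R + xs H with hx'
  set g : Zc (I2 m → ℂ) := ff false true (idM : Mt m) with hg
  obtain ⟨r, hr, hr'⟩ := mix_pos L hPD (2 * N) hN
  rw [← hg] at hr'
  set c := Lf m (g ^ (2 * N) * pr L) with hc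
  have hL0 : Lf m (g ^ (2 * m)) ≠ 0 := LF_g_ne
  have h0 : c ≠ 0 := by
    rw [hr']
    exact mul_ne_zero (by exact_mod_cast hr.ne') hL0
  have hev : ∀ s : ℂ, Lf m ((x + s • g) ^ (2 * N) * pr L) =
      c * ∑ j ∈ Finset.range (N + 1),
        ((((2 * N).choose (2 * j) : ℕ) : ℂ) * Lf m (x ^ (2 * j) * g ^ (2 * N - 2 * j) * pr L) / c) *
          (s ^ 2) ^ (N - j) := by
    intro s
    rw [mix_expand, sum_even _ fun k hk => by rw [odd_zero' hf hx hL hk]; ring,
      Finset.mul_sum]
    refine Finset.sum_congr rfl fun j hj => ?_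
    rw [Finset.mem_range] at hj
    have e : 2 * N - 2 * j = 2 * (N - j) := by omega
    rw [e, pow_mul s]
    field_simp
  obtain ⟨b, hb, hb'⟩ := sum_sign (m := N)
    (fun j => (((2 * N).choose (2 * j) : ℕ) : ℂ) * Lf m (x ^ (2 * j) * g ^ (2 * N - 2 * j) * pr L) /
      c) (by
      simp only [mul_zero, Nat.choose_zero_right, Nat.cast_one, one_mul, pow_zero, Nat.sub_zero]
      exact div_self h0) (fun w hw => by
      obtain ⟨s, hs⟩ := IsAlgClosed.exists_pow_nat_eq w (n := 2) (by norm_num)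
      have hsim : s.im = 0 := by
        by_contra hne
        have h1 := mix_one hPD hN hP hQ hR hH hne
        apply h1
        rw [← hx', ← hg, hev s, hs, hw, mul_zero]
      refine ⟨s.re ^ 2, sq_nonneg _, ?_⟩
      rw [← hs]
      have : s = (s.re : ℂ) := Complex.ext rfl (by rw [hsim, Complex.ofReal_im])
      rw [this]
      push_cast
      simp) (N := N) le_rfl
  refine ⟨b * r, by positivity, ?_⟩
  have h1 : Lf m (x ^ (2 * N) * pr L) = (-1) ^ N * (b : ℂ) * c := by
    have h2 := hb'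
    rw [Nat.choose_self, Nat.cast_one, one_mul, Nat.sub_self, pow_zero, mul_one,
      div_eq_iff h0] at h2
    exact h2
  rw [h1, hr']
  push_cast
  ring

/-- The cone of the products of positive definite matrices preserved by `f`. -/
noncomputable def Pc (f : Ed m) (n : ℕ) : AddSubmonoid (Zc (I2 m → ℂ)) :=
  AddSubmonoid.closure {z | ∃ (r : ℝ) (L : List (Fin m × Bool → Fin m × Bool → ℝ)),
    0 ≤ r ∧ GLf f L ∧ L.length = 2 * n ∧ z = (((-1) ^ n * r : ℝ) : ℂ) • pr L}

theorem Pc_gen {f : Ed m} {n : ℕ} {r : ℝ} (hr : 0 ≤ r)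
    {L : List (Fin m × Bool → Fin m × Bool → ℝ)} (hL : GLf f L) (hn : L.length = 2 * n) :
    (((-1) ^ n * r : ℝ) : ℂ) • pr L ∈ Pc f n :=
  AddSubmonoid.subset_closure ⟨r, L, hr, hL, hn, rfl⟩

theorem Pc_one (f : Ed m) : (1 : Zc (I2 m → ℂ)) ∈ Pc f 0 := by
  have h := Pc_gen (f := f) (n := 0) (r := 1) zero_le_one (L := []) (fun S hS => by simp at hS) rfl
  rwa [pow_zero, one_mul, Complex.ofReal_one, one_smul, pr, List.map_nil, List.prod_nil] at h

theorem Pc_mul {f : Ed m} {n k : ℕ} {x y : Zc (I2 m → ℂ)} (hx : x ∈ Pc f n) (hy : y ∈ Pc f k) :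
    x * y ∈ Pc f (n + k) := by
  unfold Pc at hx
  induction hx using AddSubmonoid.closure_induction with
  | mem x hx =>
    obtain ⟨r, L, hr, hL, hn, rfl⟩ := hx
    unfold Pc at hy
    induction hy using AddSubmonoid.closure_induction with
    | mem y hy =>
      obtain ⟨s, L', hs, hL', hk, rfl⟩ := hy
      have h := Pc_gen (f := f) (n := n + k) (r := r * s) (by positivity) (L := L ++ L')
        (fun S hS => (List.mem_append.1 hS).elim (hL S) (hL' S)) (by
          rw [List.length_append, hn, hk]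
          ring)
      convert h using 1
      rw [pr, pr, pr, List.map_append, List.prod_append, smul_mul_smul_comm]
      congr 1
      push_cast
      ring
    | zero => rw [mul_zero]; exact (Pc f (n + k)).zero_mem
    | add y z _ _ hy hz => rw [mul_add]; exact (Pc f (n + k)).add_mem hy hz
  | zero => rw [zero_mul]; exact (Pc f (n + k)).zero_mem
  | add x z _ _ hx hz => rw [add_mul]; exact (Pc f (n + k)).add_mem hx hz

theorem Pc_pow {f : Ed m} {x : Zc (I2 m → ℂ)} (hx : x ∈ Pc f 1) (n : ℕ) : x ^ n ∈ Pc f n := by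
  induction n with
  | zero => rw [pow_zero]; exact Pc_one f
  | succ n ih => rw [pow_succ]; exact Pc_mul ih hx

theorem Pc_pos {f : Ed m} {P Q R : Mt m} {H : Fin m × Bool → Fin m × Bool → ℝ}
    (hP : RSk P) (hQ : RSk Q) (hR : RSk R) (hH : ∀ i j, H i j = H j i)
    (hf : Fx f (ff false true (idM : Mt m))) (hx : Rx f (WW P Q R + xs H))
    {N n : ℕ} (hN : N + n = m) {T : Zc (I2 m → ℂ)} (hT : T ∈ Pc f n) :
    0 ≤ LR m ((WW P Q R + xs H) ^ (2 * N) * T) := by
  unfold Pc at hT
  induction hT using AddSubmonoid.closure_induction with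
  | mem x hx' =>
    obtain ⟨r, L, hr, hL, hn, rfl⟩ := hx'
    obtain ⟨b, hb, hb'⟩ := mix_sign' hP hQ hR hH hf hx hL (N := N) (by omega)
    rw [LR_apply, mul_smul_comm, map_smul, map_smul, ← Lf_apply, hb', smul_eq_mul,
      Complex.re_ofReal_mul]
    have e5 : (((-1 : ℂ)) ^ N * (b : ℂ)) = (((-1 : ℝ) ^ N * b : ℝ) : ℂ) := by push_cast; ring
    rw [e5, Complex.re_ofReal_mul]
    have h1 := top_sign (m := m)
    have e6 : (-1) ^ n * r * ((-1) ^ N * b *
        (Lf m (ff false true (idM : Mt m) ^ (2 * m))).re) =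
        r * b * ((-1) ^ m * (Lf m (ff false true (idM : Mt m) ^ (2 * m))).re) := by
      rw [← hN, pow_add]
      ring
    rw [e6]
    positivity
  | zero => rw [mul_zero, map_zero]
  | add x y _ _ hx hy => rw [mul_add, map_add]; exact add_nonneg hx hy

variable {κ : Type} [Fintype κ] {ι : Type} [Fintype ι]

/-- real combination of symmetric matrices -/
def rs (c : ι → ℝ) (H : ι → Fin m × Bool → Fin m × Bool → ℝ) : Fin m × Bool → Fin m × Bool → ℝ :=
  ∑ a, c a • H a

theorem rs_symm {H : ι → Fin m × Bool → Fin m × Bool → ℝ} (hH : ∀ a i j, H a i j = H a j i)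
    (c : ι → ℝ) (i j : Fin m × Bool) : rs c H i j = rs c H j i := by
  simp only [rs, Finset.sum_apply, Pi.smul_apply, smul_eq_mul, hH _ i j]

theorem xs_sum (c : ι → ℝ) (H : ι → Fin m × Bool → Fin m × Bool → ℝ) :
    xs (rs c H) = ∑ a, c a • xs (H a) := by
  classical
  unfold rs
  induction (Finset.univ : Finset ι) using Finset.induction with
  | empty => rw [Finset.sum_empty, Finset.sum_empty, xs_zero]
  | insert a s ha ih =>
    rw [Finset.sum_insert ha, Finset.sum_insert ha, xs_add, ih, xs_smul, Complex.coe_smul]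

/-- Any three real combinations of the skew matrices, together with a combination of the symmetric
ones, are reversed by a symmetry for which `D` is positive. -/
def RevPair (A : κ → Mt m) (H : ι → Fin m × Bool → Fin m × Bool → ℝ) (D : Zc (I2 m → ℂ)) : Prop :=
  ∀ (p q r : κ → ℝ) (c : ι → ℝ), ∃ f : Ed m, Fx f (ff false true (idM : Mt m)) ∧
    Rx f (WW (rc p A) (rc q A) (rc r A) + xs (rs c H)) ∧ D ∈ Pc f 1

theorem rev_pos' {A : κ → Mt m} (hA : ∀ a, RSk (A a))
    {H : ι → Fin m × Bool → Fin m × Bool → ℝ} (hH : ∀ a i j, H a i j = H a j i)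
    {D : Zc (I2 m → ℂ)} (h : RevPair A H D)
    {N n : ℕ} (hN : N + n = m) :
    0 ≤ LR m ((∑ a, qi (A a) + ∑ a, xs (H a) ^ 2) ^ N * D ^ n) := by
  classical
  have e : ∑ a, qi (A a) + ∑ a, xs (H a) ^ 2 =
      ∑ i : (κ × Fin 3) ⊕ ι, (Sum.elim (xf A) (fun a => xs (H a)) i) ^ 2 := by
    rw [Fintype.sum_sum_type, ← xf_sq]
    simp only [Sum.elim_inl, Sum.elim_inr]
  rw [e]
  refine gauss_pos (Sum.elim (xf A) (fun a => xs (H a))) (D ^ n) (LR m) N fun ξ => ?_
  obtain ⟨f, hf, h1, hD⟩ := h (fun a => ξ (Sum.inl (a, 0))) (fun a => ξ (Sum.inl (a, 1)))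
    (fun a => ξ (Sum.inl (a, 2))) (fun a => ξ (Sum.inr a))
  rw [Fintype.sum_sum_type]
  simp only [Sum.elim_inl, Sum.elim_inr]
  rw [xf_sum A (fun i => ξ (Sum.inl i)), ← xs_sum (fun a => ξ (Sum.inr a)) H]
  exact Pc_pos (rc_rsk hA _) (rc_rsk hA _) (rc_rsk hA _) (rs_symm hH _) hf h1 hN (Pc_pow hD n)

end Pool.Agent.U661.RW
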