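import Pool.Agent.U661.RW.Geo

/-!
# Forms on euclidean spaces
-/

set_option autoImplicit false

namespace Pool.Agent.U661.RW

open Finset Pool.Agent.Y195.HF Pool.Agent.W666.GB Pool.Agent.W669.HD Pool.Agent.U661.HS
open Pool.Agent.U661.RV

variable {m : ℕ} {V : Type} [NormedAddCommGroup V] [InnerProductSpace ℝ V]

/-- `D + ∑ skewCurv (A a) - ∑ (h b ∧ h b)`, where `(h ∧ h)(x,y,z,w) = h(x,z) h(y,w) - h(x,w) h(y,z)` -/
noncomputable def full {n q : ℕ} (D : V → V → V → V → ℝ) (A : Fin n → V → V → ℝ)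
    (h : Fin q → V → V → ℝ) (x y z w : V) : ℝ :=
  D x y z w + ∑ a, skewCurv (A a) x y z w - ∑ b, (h b x z * h b y w - h b x w * h b y z)

/-- For every real combination `H` of the symmetric forms `h b` and any three real combinations of
the skew forms `A a` there is a linear isometry `g` of the space which preserves the forms `S j` and
`S' j` and reverses `H`, and which either reverses the three combinations, or preserves them, and
then the three combinations are linearly dependent. -/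
def Rev {n q r : ℕ} (A : Fin n → V → V → ℝ) (h : Fin q → V → V → ℝ)
    (S S' : Fin r → V → V → ℝ) : Prop :=
  ∀ (c : Fin q → ℝ) (p : Fin 3 → Fin n → ℝ), ∃ g : V →ₗᵢ[ℝ] V,
    (∀ j x y, S j (g x) (g y) = S j x y ∧ S' j (g x) (g y) = S' j x y) ∧
    (∀ x y, lcf c h (g x) (g y) = - lcf c h x y) ∧
    ((∀ i x y, lcf (p i) A (g x) (g y) = - lcf (p i) A x y) ∨
      ((∀ i x y, lcf (p i) A (g x) (g y) = lcf (p i) A x y) ∧
        ∃ v : Fin 3 → ℝ, v ≠ 0 ∧ ∀ x y, ∑ i, v i * lcf (p i) A x y = 0))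

theorem lcf_sym {κ : Type} [Fintype κ] {A : κ → V → V → ℝ}
    (hA : ∀ a, SymForm (A a)) (p : κ → ℝ) : SymForm (lcf p A) where
  add x x' y := by
    simp only [lcf, (hA _).add, mul_add, Finset.sum_add_distrib]
  smul t x y := by
    simp only [lcf, (hA _).smul, Finset.mul_sum]
    exact Finset.sum_congr rfl fun a _ => by ring
  symm x y := by
    simp only [lcf, (hA _).symm x y]

theorem rs_lcf {q : ℕ} (e : OrthonormalBasis (Fin m × Bool) ℝ V) (h : Fin q → V → V → ℝ)
    (c : Fin q → ℝ) : rs c (fun b i j => h b (e i) (e j)) = fun i j => lcf c h (e i) (e j) := by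
  funext i j
  simp only [rs, lcf, Finset.sum_apply, Pi.smul_apply, smul_eq_mul]

theorem base_Pc (e : OrthonormalBasis (Fin m × Bool) ℝ V) {f : Ed m} {δ : ℝ} (hδ : 0 ≤ δ)
    {r : ℕ} {S S' : Fin r → V → V → ℝ} (hS : ∀ j, Pdf (S j)) (hS' : ∀ j, Pdf (S' j))
    (hf : Fx f (ff false true (idM : Mt m)))
    (h1 : ∀ j, Fx f (xs fun i k => S j (e i) (e k)))
    (h2 : ∀ j, Fx f (xs fun i k => S' j (e i) (e k))) :
    eL (cx (cp e (base δ S S'))) ∈ Pc f 1 := by
  have e1 : (cx (cp e (base δ S S')) : C4 m) = fun i j k l => (fun i j k l => (δ : ℂ) *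
      cx (uT : T4 m) i j k l : C4 m) i j k l + (fun i j k l => ∑ a : Fin r, (fun a => (cx
      (knM (fun i j => S a (e i) (e j)) (fun i j => S' a (e i) (e j))) : C4 m)) a i j k l :
        C4 m) i j k l := by
    funext i j k l
    simp only [cx, cp, base, knM, kn, uT, cp_unit]
    push_cast
    rfl
  have e2 : GLf f [one' m, one' m] := by
    intro T hT
    have : T = one' m := by simpa using hT
    rw [this]
    exact ⟨pd_one, by rw [xs_one]; exact hf⟩
  have e3 : ∀ a, GLf f [fun i j => S a (e i) (e j), fun i j => S' a (e i) (e j)] := by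
    intro a T hT
    rcases List.mem_cons.1 hT with h | h
    · rw [h]
      exact ⟨(hS a).pd e, h1 a⟩
    · have : T = fun i j => S' a (e i) (e j) := by simpa using h
      rw [this]
      exact ⟨(hS' a).pd e, h2 a⟩
  rw [e1, eL_add, eL_smul, eL_sum]
  refine AddSubmonoid.add_mem _ ?_ (AddSubmonoid.sum_mem _ fun a _ => ?_)
  · have h := Pc_gen (f := f) (n := 1) (r := 2 * δ) (by positivity) e2 rfl
    convert h using 1
    rw [eL_unit, pr, List.map_cons, List.map_cons, List.map_nil, List.prod_cons, List.prod_cons,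
      List.prod_nil, mul_one, xs_one, smul_smul, sq]
    congr 1
    push_cast
    ring
  · have h := Pc_gen (f := f) (n := 1) (r := 4) (by positivity) (e3 a) rfl
    convert h using 1
    rw [eL_kn, pr, List.map_cons, List.map_cons, List.map_nil, List.prod_cons, List.prod_cons,
      List.prod_nil, mul_one]
    congr 1
    push_cast
    ring

/-- the positive definite case -/
theorem full_pdf (e : OrthonormalBasis (Fin m × Bool) ℝ V) {δ : ℝ} (hδ : 0 ≤ δ)
    {n q r : ℕ} {A : Fin n → V → V → ℝ} {h : Fin q → V → V → ℝ} {S S' : Fin r → V → V → ℝ}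
    (hA : ∀ a, SkewForm (A a)) (hh : ∀ b, SymForm (h b))
    (hS : ∀ j, Pdf (S j)) (hS' : ∀ j, Pdf (S' j)) (hr : Rev A h S S') :
    gbc e (base δ S S') ≤ gbc e (full (base δ S S') A h) := by
  rw [gbc_gm, gbc_gm]
  have hπ := Real.pi_pos
  have hc : 0 < 1 / ((8 * Real.pi) ^ m * (m.factorial : ℝ)) := by positivity
  refine mul_le_mul_of_nonneg_left ?_ hc.le
  refine gm_rev' (D := cp e (base δ S S')) (A := fun a i j => A a (e i) (e j))
    (H := fun b i j => h b (e i) (e j))
    (fun a i j => (hA a).anti _ _) (fun b i j => (hh b).symm _ _) fun p q s c => ?_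
  obtain ⟨g, h1, h2, h3⟩ := hr c ![p, q, s]
  obtain ⟨f, hf, hf', hf''⟩ := rev_exists (G := gmat e g) (gmat_id e g)
    (P := fun i => cm fun k l => lcf (![p, q, s] i) A (e k) (e l))
    (H := fun k l => lcf c h (e k) (e l))
    (fun i => ⟨fun k l => by simp only [cm, Complex.conj_ofReal], fun k l => by
      simp only [cm, (lcf_skew hA (![p, q, s] i)).anti (e k) (e l), Complex.ofReal_neg]⟩)
    (gmat_neg e g (lcf_sym hh c).bl h2)
    (by
      rcases h3 with h3 | ⟨h3, v, hv, h4⟩
      · exact Or.inl fun i => gmat_neg e g (skew_bl (lcf_skew hA _)) (h3 i)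
      · refine Or.inr ⟨fun i => gmat_fix e g (skew_bl (lcf_skew hA _)) (h3 i), v, hv, ?_⟩
        funext k l
        rw [Finset.sum_apply, Finset.sum_apply]
        simp only [Pi.smul_apply, smul_eq_mul, cm, Pi.zero_apply]
        have := h4 (e k) (e l)
        exact_mod_cast congrArg (fun t : ℝ => (t : ℂ)) this)
    (fun i j => (lcf_sym hh c).symm _ _)
  refine ⟨f, hf, ?_, base_Pc e hδ hS hS' hf (fun j => hf'' _ (fun i k => (hS j).1.symm _ _)
    (gmat_fix e g (hS j).1.bl fun x y => (h1 j x y).1)) (fun j => hf'' _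
      (fun i k => (hS' j).1.symm _ _) (gmat_fix e g (hS' j).1.bl fun x y => (h1 j x y).2))⟩
  rw [rc_cm, rc_cm, rc_cm, rs_lcf]
  exact hf'

theorem ept_Rev {n q r : ℕ} {A : Fin n → V → V → ℝ} {h : Fin q → V → V → ℝ}
    {S S' : Fin r → V → V → ℝ} (hr : Rev A h S S') (ε : ℝ) :
    Rev A h (fun j => ept ε (S j)) (fun j => ept ε (S' j)) := by
  intro c p
  obtain ⟨g, h1, h2, h3⟩ := hr c p
  refine ⟨g, fun j x y => ⟨?_, ?_⟩, h2, h3⟩
  · simp only [ept, (h1 j x y).1, LinearIsometry.inner_map_map]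
  · simp only [ept, (h1 j x y).2, LinearIsometry.inner_map_map]

theorem full_cont (e : OrthonormalBasis (Fin m × Bool) ℝ V) (δ : ℝ)
    {n q r : ℕ} (A : Fin n → V → V → ℝ) (h : Fin q → V → V → ℝ) (S S' : Fin r → V → V → ℝ) :
    Continuous fun ε : ℝ => gbc e (full (base δ (fun j => ept ε (S j))
      (fun j => ept ε (S' j))) A h) := by
  unfold gbc full base kn ept
  fun_prop

/-- The comparison theorem. -/
theorem full_main (e : OrthonormalBasis (Fin m × Bool) ℝ V) {δ : ℝ} (hδ : 0 ≤ δ)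
    {n q r : ℕ} {A : Fin n → V → V → ℝ} {h : Fin q → V → V → ℝ} {S S' : Fin r → V → V → ℝ}
    (hA : ∀ a, SkewForm (A a)) (hh : ∀ b, SymForm (h b))
    (hS : ∀ j, Psd (S j)) (hS' : ∀ j, Psd (S' j)) (hr : Rev A h S S') :
    gbc e (base δ S S') ≤ gbc e (full (base δ S S') A h) := by
  have h1 := ((full_cont e δ A h S S').tendsto 0).mono_left
    (nhdsWithin_le_nhds (s := Set.Ioi 0))
  have h2 := ((base_cont' e δ S S').tendsto 0).mono_left
    (nhdsWithin_le_nhds (s := Set.Ioi 0))
  simp only [ept_zero] at h1 h2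
  refine le_of_tendsto_of_tendsto h2 h1 ?_
  filter_upwards [self_mem_nhdsWithin] with ε hε
  exact full_pdf e hδ hA hh (fun j => ept_pdf (hS j) hε) (fun j => ept_pdf (hS' j) hε)
    (ept_Rev hr ε)

/-- The comparison theorem for `-R`. -/
theorem full_neg (e : OrthonormalBasis (Fin m × Bool) ℝ V) {δ : ℝ} (hδ : 0 ≤ δ)
    {n q r : ℕ} {A : Fin n → V → V → ℝ} {h : Fin q → V → V → ℝ} {S S' : Fin r → V → V → ℝ}
    (hA : ∀ a, SkewForm (A a)) (hh : ∀ b, SymForm (h b))
    (hS : ∀ j, Psd (S j)) (hS' : ∀ j, Psd (S' j)) (hr : Rev A h S S') :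
    roundGB m δ ≤ (-1) ^ m * gbc e (negT (base δ S S')) ∧
      (-1) ^ m * gbc e (negT (base δ S S')) ≤
        (-1) ^ m * gbc e (negT (full (base δ S S') A h)) := by
  rw [RV.gbc_neg, RV.gbc_neg]
  exact ⟨mono_main e hδ hS hS', full_main e hδ hA hh hS hS' hr⟩

end Pool.Agent.U661.RW
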