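import Pool.Agent.U661.RW.Fam
import Pool.Agent.U661.RV.Ex

/-!
# The comparison theorem with symmetric forms of both signs
-/

set_option autoImplicit false

namespace Pool.Agent.U661.RW

open Finset Pool.Agent.Y195.HF Pool.Agent.W666.GB Pool.Agent.W669.HD Pool.Agent.U661.HS
open Pool.Agent.U661.RV

variable {m : ℕ}

section alg

variable {κ : Type} [Fintype κ] {ι : Type} [Fintype ι]

/-- the (Kulkarni–Nomizu) square of a symmetric matrix -/
def sqM (H : Fin m × Bool → Fin m × Bool → ℝ) : T4 m := fun i j k l =>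
  H i k * H j l - H i l * H j k

theorem eL_sqM (H : Fin m × Bool → Fin m × Bool → ℝ) :
    eL (cx (sqM H)) = (-2 : ℂ) • xs H ^ 2 := by
  have h := eL_kn H H
  have e : (cx (knM H H) : C4 m) = fun i j k l => (2 : ℂ) * cx (sqM H) i j k l := by
    funext i j k l
    simp only [cx, knM, sqM]
    push_cast
    ring
  rw [e, eL_smul] at h
  have h2 : eL (cx (sqM H)) = (1 / 2 : ℂ) • ((2 : ℂ) • eL (cx (sqM H))) := by
    rw [smul_smul]
    norm_num
  rw [h2, h, smul_smul, sq]
  norm_num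

/-- The algebraic comparison theorem. -/
theorem gm_rev' {D : T4 m} {A : κ → Fin m × Bool → Fin m × Bool → ℝ}
    {H : ι → Fin m × Bool → Fin m × Bool → ℝ}
    (hA : ∀ a i j, A a j i = - A a i j) (hH : ∀ a i j, H a i j = H a j i)
    (h : RevPair (fun a => cm (A a)) H (eL (cx D))) :
    gm (fun _ : Fin m => D) ≤ gm (fun _ : Fin m =>
      (fun i j k l => D i j k l + ∑ a, scR (A a) i j k l - ∑ a, sqM (H a) i j k l : T4 m)) := by
  have hA' : ∀ a, RSk (cm (A a) : Mt m) := fun a =>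
    ⟨fun i j => by simp only [cm, Complex.conj_ofReal], fun i j => by
      simp only [cm, hA a i j, Complex.ofReal_neg]⟩
  set Z : Zc (I2 m → ℂ) := ∑ a, qi (cm (A a)) + ∑ a, xs (H a) ^ 2 with hZ
  have key : ∀ a c : ℕ, a + c = m →
      0 ≤ LR m (eL (cx D) ^ a * ((2 : ℂ) • Z) ^ c) := by
    intro a c hac
    have h1 := rev_pos' hA' hH h (N := c) (n := a) (by omega)
    rw [← hZ] at h1
    have e1 : eL (cx D) ^ a * ((2 : ℂ) • Z) ^ c =
        ((2 : ℝ) ^ c) • (Z ^ c * eL (cx D) ^ a) := by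
      rw [smul_pow, ← Complex.coe_smul]
      push_cast
      simp only [Algebra.smul_def]
      ring
    rw [e1, map_smul, smul_eq_mul]
    positivity
  have hsum : eL (cx (fun i j k l => D i j k l + ∑ a, scR (A a) i j k l -
      ∑ a, sqM (H a) i j k l : T4 m)) = eL (cx D) + (2 : ℂ) • Z := by
    have e0 : (cx (fun i j k l => D i j k l + ∑ a, scR (A a) i j k l -
      ∑ a, sqM (H a) i j k l : T4 m) : C4 m) = fun i j k l => (fun i j k l => cx D i j k l +
        (fun i j k l => ∑ a : κ, (fun a => (cx (scR (A a)) : C4 m)) a i j k l : C4 m) i j k l :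
          C4 m) i j k l +
        (fun i j k l => (-1 : ℂ) * (fun i j k l => ∑ a : ι, (fun a => (cx (sqM (H a)) : C4 m))
          a i j k l : C4 m) i j k l : C4 m) i j k l := by
      funext i j k l
      simp only [cx]
      push_cast
      ring
    rw [e0, eL_add, eL_add, eL_smul, eL_sum, eL_sum, hZ, smul_add, Finset.smul_sum,
      Finset.smul_sum, Finset.smul_sum, ← add_assoc]
    congr 1
    · congr 1
      exact Finset.sum_congr rfl fun a _ => eL_scR (A a)
    · refine Finset.sum_congr rfl fun a _ => ?_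
      rw [eL_sqM, smul_smul]
      norm_num
  rw [gm_LR, gm_LR, hsum, add_pow, map_sum, Finset.sum_range_succ]
  have h1 : eL (cx D) ^ m * ((2 : ℂ) • Z) ^ (m - m) *
      ((m.choose m : ℕ) : Zc (I2 m → ℂ)) = eL (cx D) ^ m := by
    rw [Nat.sub_self, pow_zero, Nat.choose_self, Nat.cast_one, mul_one, mul_one]
  rw [h1]
  have h2 : 0 ≤ ∑ k ∈ Finset.range m, LR m (eL (cx D) ^ k *
      ((2 : ℂ) • Z) ^ (m - k) * ((m.choose k : ℕ) : Zc (I2 m → ℂ))) := by
    refine Finset.sum_nonneg fun k hk => ?_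
    rw [Finset.mem_range] at hk
    have h3 := key k (m - k) (by omega)
    have e2 : eL (cx D) ^ k * ((2 : ℂ) • Z) ^ (m - k) *
        ((m.choose k : ℕ) : Zc (I2 m → ℂ)) =
        ((m.choose k : ℕ) : ℝ) • (eL (cx D) ^ k * ((2 : ℂ) • Z) ^ (m - k)) := by
      simp only [Algebra.smul_def, map_natCast]
      ring
    rw [e2, map_smul, smul_eq_mul]
    positivity
  linarith

/-- The action of a unit imaginary quaternion reverses the triples orthogonal to it. -/
theorem act_WW {P Q R : Mt m} (hP : RSk P) (hQ : RSk Q) (hR : RSk R) {v₁ v₂ v₃ : ℂ}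
    (hv : v₁ ^ 2 + v₂ ^ 2 + v₃ ^ 2 = 1) (h0 : v₁ • P + v₂ • Q + v₃ • R = 0) :
    Rx (act m (Complex.I * v₃) (v₁ - Complex.I * v₂) (-(v₁ + Complex.I * v₂)) (-(Complex.I * v₃)))
      (WW P Q R) := by
  have h1 : ∀ s t : Bool, v₁ • ff s t P + v₂ • ff s t Q + v₃ • ff s t R = 0 := by
    intro s t
    rw [← ff_smul, ← ff_smul, ← ff_smul, ← ff_add, ← ff_add, h0]
    unfold ff
    simp
  have hI : Complex.I ^ 2 = -1 := Complex.I_sq
  have hN : ∀ x y : Zc (I2 m → ℂ), x = y → zval x = zval y := fun x y h => by rw [h]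
  set f := act m (Complex.I * v₃) (v₁ - Complex.I * v₂) (-(v₁ + Complex.I * v₂))
    (-(Complex.I * v₃)) with hf
  have k1 := map_pp (Complex.I * v₃) (v₁ - Complex.I * v₂) (-(v₁ + Complex.I * v₂))
    (-(Complex.I * v₃)) hP.2
  have k2 := map_pp (Complex.I * v₃) (v₁ - Complex.I * v₂) (-(v₁ + Complex.I * v₂))
    (-(Complex.I * v₃)) hQ.2
  have k3 := map_cc (Complex.I * v₃) (v₁ - Complex.I * v₂) (-(v₁ + Complex.I * v₂))
    (-(Complex.I * v₃)) hP.2
  have k4 := map_cc (Complex.I * v₃) (v₁ - Complex.I * v₂) (-(v₁ + Complex.I * v₂))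
    (-(Complex.I * v₃)) hQ.2
  have k5 := map_pc (Complex.I * v₃) (v₁ - Complex.I * v₂) (-(v₁ + Complex.I * v₂))
    (-(Complex.I * v₃)) hR.2
  rw [← hf] at k1 k2 k3 k4 k5
  unfold Rx
  have e0 : ExteriorAlgebra.map f (zval (WW P Q R)) =
      (1 / 2 : ℂ) • ExteriorAlgebra.map f (zval (ff false false P)) +
      (Complex.I / 2) • ExteriorAlgebra.map f (zval (ff false false Q)) +
      ((1 / 2 : ℂ) • ExteriorAlgebra.map f (zval (ff true true P)) -
        (Complex.I / 2) • ExteriorAlgebra.map f (zval (ff true true Q))) +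
      Complex.I • ExteriorAlgebra.map f (zval (ff false true R)) := by
    unfold WW
    simp only [map_add, map_sub, map_smul]
  rw [e0, k1, k2, k3, k4, k5]
  simp only [← map_smul]
  simp only [← map_sub, ← map_add]
  refine hN _ _ ?_
  unfold WW
  have g0 := h1 false false
  have g1 := h1 false true
  have g2 := h1 true true
  generalize ff false false P = a0 at *
  generalize ff false false Q = b0 at *
  generalize ff false false R = c0 at *
  generalize ff false true P = a1 at *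
  generalize ff false true Q = b1 at *
  generalize ff false true R = c1 at *
  generalize ff true true P = a2 at *
  generalize ff true true Q = b2 at *
  generalize ff true true R = c2 at *
  linear_combination (norm := module) (v₁ + Complex.I * v₂) • g0 + (2 * Complex.I * v₃) • g1 +
    (v₁ - Complex.I * v₂) • g2 +
    ((1 / 2 * (v₂ ^ 2 + v₃ ^ 2)) * hI - (1 / 2) * hv) • a0 +
    ((Complex.I / 2 * (v₃ ^ 2 - v₂ ^ 2) - v₁ * v₂) * hI - (Complex.I / 2) * hv) • b0 +
    ((-(v₃ * (v₁ + Complex.I * v₂))) * hI) • c0 +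
    ((-(2 * Complex.I * v₂ * v₃)) * hI) • b1 +
    ((Complex.I * (v₂ ^ 2 - v₃ ^ 2)) * hI - Complex.I * hv) • c1 +
    ((1 / 2 * (v₂ ^ 2 + v₃ ^ 2)) * hI - (1 / 2) * hv) • a2 +
    ((-(v₁ * v₂) + Complex.I / 2 * (v₂ ^ 2 - v₃ ^ 2)) * hI + (Complex.I / 2) * hv) • b2 +
    ((-(v₃ * (v₁ - Complex.I * v₂))) * hI) • c2

theorem ff_diag {s : Bool} {A : Mt m} (hA : ∀ i j, A i j = A j i) : ff s s A = 0 := by
  have h : ff s s A = - ff s s A := by
    conv_lhs => rw [ff, Finset.sum_comm]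
    unfold ff
    rw [← Finset.sum_neg_distrib]
    refine Finset.sum_congr rfl fun i _ => ?_
    rw [← Finset.sum_neg_distrib]
    refine Finset.sum_congr rfl fun j _ => ?_
    rw [bv_swap, hA j i, smul_neg]
  have h2 : (2 : ℂ) • ff s s A = 0 := by
    rw [two_smul]
    nth_rewrite 1 [h]
    rw [neg_add_cancel]
  exact (smul_eq_zero.1 h2).resolve_left two_ne_zero

theorem ff_swap {A : Mt m} (hA : ∀ i j, A i j = A j i) : ff true false A = - ff false true A := by
  conv_lhs => rw [ff, Finset.sum_comm]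
  unfold ff
  rw [← Finset.sum_neg_distrib]
  refine Finset.sum_congr rfl fun i _ => ?_
  rw [← Finset.sum_neg_distrib]
  refine Finset.sum_congr rfl fun j _ => ?_
  rw [bv_swap, hA j i, smul_neg]

/-- The action fixes the elements of symmetric matrices. -/
theorem act_ff {a b c d : ℂ} (h : a * d - b * c = 1) {A : Mt m} (hA : ∀ i j, A i j = A j i) :
    Fx (act m a b c d) (ff false true A) := by
  unfold Fx
  rw [map_ff, ff_diag hA, ff_diag hA, ff_swap hA]
  congr 1
  simp only [Bool.false_eq_true, if_false, if_true, smul_zero, zero_add, add_zero]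
  linear_combination (norm := module) h • ff false true A

theorem comp_fx {f f' : Ed m} {x : Zc (I2 m → ℂ)} (h : Fx f x) (h' : Fx f' x) :
    Fx (f' ∘ₗ f) x := by
  unfold Fx at *
  rw [← ExteriorAlgebra.map_comp_map, AlgHom.comp_apply, h, h']

theorem comp_rx {f f' : Ed m} {x : Zc (I2 m → ℂ)} (h : Fx f x) (h' : Rx f' x) :
    Rx (f' ∘ₗ f) x := by
  unfold Fx at h
  unfold Rx at *
  rw [← ExteriorAlgebra.map_comp_map, AlgHom.comp_apply, h, h']

theorem comp_rx' {f f' : Ed m} {x : Zc (I2 m → ℂ)} (h : Rx f x) (h' : Fx f' x) :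
    Rx (f' ∘ₗ f) x := by
  unfold Fx at h'
  unfold Rx at *
  rw [← ExteriorAlgebra.map_comp_map, AlgHom.comp_apply, h, map_neg, map_neg, h']

theorem lin_ff_fx {G P : Mt m} (s t : Bool) (h : trf G P = P) : Fx (lin G) (ff s t P) := by
  unfold Fx
  rw [lin_ff, h]

theorem lin_ff_rx {G P : Mt m} (s t : Bool) (h : trf G P = -P) : Rx (lin G) (ff s t P) := by
  unfold Rx
  rw [lin_ff, h, ff_neg]

theorem lin_WW_rx {G P Q R : Mt m} (hP : trf G P = -P) (hQ : trf G Q = -Q) (hR : trf G R = -R) :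
    Rx (lin G) (WW P Q R) := lin_WW hP hQ hR

theorem lin_WW_fx {G P Q R : Mt m} (hP : trf G P = P) (hQ : trf G Q = Q) (hR : trf G R = R) :
    Fx (lin G) (WW P Q R) := by
  unfold Fx WW
  simp only [map_add, map_sub, map_smul, lin_ff, hP, hQ, hR]

/-- The two ways of reversing a pencil. -/
theorem rev_exists {G : Mt m} (hG : trf G idM = idM) {P : Fin 3 → Mt m} (hP : ∀ i, RSk (P i))
    {H : Fin m × Bool → Fin m × Bool → ℝ} (hH : trf G (cm H) = - cm H)
    (h : (∀ i, trf G (P i) = - P i) ∨ ((∀ i, trf G (P i) = P i) ∧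
      ∃ v : Fin 3 → ℝ, v ≠ 0 ∧ ∑ i, (v i : ℂ) • P i = 0)) (hs : ∀ i j, H i j = H j i) :
    ∃ f : Ed m, Fx f (ff false true (idM : Mt m)) ∧ Rx f (WW (P 0) (P 1) (P 2) + xs H) ∧
      ∀ S : Fin m × Bool → Fin m × Bool → ℝ, (∀ i j, S i j = S j i) → trf G (cm S) = cm S →
        Fx f (xs S) := by
  rcases h with h | ⟨h, v, hv, h0⟩
  · exact ⟨lin G, lin_ff_fx _ _ hG, (lin_WW_rx (h 0) (h 1) (h 2)).add (lin_ff_rx _ _ hH),
      fun S _ hS => lin_ff_fx _ _ hS⟩
  · have hN : 0 < v 0 ^ 2 + v 1 ^ 2 + v 2 ^ 2 := by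
      by_contra hcon
      apply hv
      funext i
      have h1 : v 0 ^ 2 + v 1 ^ 2 + v 2 ^ 2 ≤ 0 := not_lt.1 hcon
      have h2 := sq_nonneg (v 0)
      have h3 := sq_nonneg (v 1)
      have h4 := sq_nonneg (v 2)
      have e0 : v 0 = 0 := by
        have : v 0 ^ 2 = 0 := by linarith
        exact pow_eq_zero_iff (two_ne_zero) |>.1 this
      have e1 : v 1 = 0 := by
        have : v 1 ^ 2 = 0 := by linarith
        exact pow_eq_zero_iff (two_ne_zero) |>.1 this
      have e2 : v 2 = 0 := by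
        have : v 2 ^ 2 = 0 := by linarith
        exact pow_eq_zero_iff (two_ne_zero) |>.1 this
      fin_cases i
      · exact e0
      · exact e1
      · exact e2
    set t : ℝ := Real.sqrt (v 0 ^ 2 + v 1 ^ 2 + v 2 ^ 2) with ht
    have ht0 : 0 < t := Real.sqrt_pos.2 hN
    have ht2 : t ^ 2 = v 0 ^ 2 + v 1 ^ 2 + v 2 ^ 2 := Real.sq_sqrt hN.le
    have htc : (t : ℂ) ≠ 0 := by exact_mod_cast ht0.ne'
    have ht2' : (t : ℂ) ^ 2 = (v 0 : ℂ) ^ 2 + (v 1 : ℂ) ^ 2 + (v 2 : ℂ) ^ 2 := by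
      exact_mod_cast ht2
    have e1 : ((v 0 : ℂ) / t) ^ 2 + ((v 1 : ℂ) / t) ^ 2 + ((v 2 : ℂ) / t) ^ 2 = 1 := by
      rw [div_pow, div_pow, div_pow, ← add_div, ← add_div, ← ht2']
      exact div_self (pow_ne_zero _ htc)
    have e2 : ((v 0 : ℂ) / t) • P 0 + ((v 1 : ℂ) / t) • P 1 + ((v 2 : ℂ) / t) • P 2 = 0 := by
      rw [Fin.sum_univ_three] at h0
      have : ((v 0 : ℂ) / t) • P 0 + ((v 1 : ℂ) / t) • P 1 + ((v 2 : ℂ) / t) • P 2 =
          (1 / t : ℂ) • ((v 0 : ℂ) • P 0 + (v 1 : ℂ) • P 1 + (v 2 : ℂ) • P 2) := by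
        simp only [smul_add, smul_smul]
        ring_nf
      rw [this, h0, smul_zero]
    have hact := act_WW (hP 0) (hP 1) (hP 2) e1 e2
    have hdet : (Complex.I * ((v 2 : ℂ) / t)) * (-(Complex.I * ((v 2 : ℂ) / t))) -
        ((v 0 : ℂ) / t - Complex.I * ((v 1 : ℂ) / t)) *
          (-((v 0 : ℂ) / t + Complex.I * ((v 1 : ℂ) / t))) = 1 := by
      have hI : Complex.I ^ 2 = -1 := Complex.I_sq
      linear_combination e1 - (((v 2 : ℂ) / t) ^ 2 + ((v 1 : ℂ) / t) ^ 2) * hI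
    refine ⟨_ ∘ₗ lin G, comp_fx (lin_ff_fx _ _ hG) (act_ff hdet fun i j => ?_),
      (comp_rx (lin_WW_fx (h 0) (h 1) (h 2)) hact).add
        (comp_rx' (lin_ff_rx _ _ hH) (act_ff hdet fun i j => ?_)),
      fun S hS hS' => comp_fx (lin_ff_fx _ _ hS') (act_ff hdet fun i j => ?_)⟩
    · simp only [idM, eq_comm]
    · simp only [cm, hs i j]
    · simp only [cm, hS i j]

end alg

end Pool.Agent.U661.RW
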